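import Pool.Agent.Q197.Beur.Main

/-!
# Every Lipschitz interpolating family of pairs has a Beurling set

The proof. Let `M` be the interpolation constant. For finitely many pairs and finitely many points
consider the pseudometric `c(z, w) = max |g_α(z) - g_α(w)|`, the maximum over all choices of signs
`α` of a lift `g_α` of `α` with norm at most `M`. Join the two points of each pair, and double every
other point; the resulting perfect matching has least `c`-cost among all perfect matchings, because
the union of two perfect matchings is bipartite, which gives the choice of signs to be used. A least
pseudometric below `c` with the same property satisfies the four point condition (exchange between
two optimal perfect matchings), so it is a tree metric in which the pairs span segments without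
common interior parts, and the projections to these segments form the Beurling set. The general case
follows by compactness.
-/

set_option autoImplicit false

namespace Pool.Agent.Results.MP_f46ce3_an.BeurlingSetsExist

open Pool.Agent.Q197.Beur

universe u v

/-- For every pointed metric space and every Lipschitz interpolating family of pairs of distinct
points, indexed by an arbitrary nonempty set, there is a Beurling set with the interpolation
constant of the family. -/
theorem result {X : Type u} [MetricSpace X] (o : X) {I : Type v} [Nonempty I] [DecidableEq I]
    (x y : I → X) (hxy : ∀ i, x i ≠ y i) (hT : IsInterpolating o x y) :
    ∃ f : I → X → ℝ, IsBeurling o x y (interpConst o x y) f :=
  exists_beurling hxy hT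

end Pool.Agent.Results.MP_f46ce3_an.BeurlingSetsExist
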